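import Pool.Agent.Helper77_Fine.Bump
import Pool.Agent.Helper69_Fine.Vert

/-! # FINE part 3, module DAPX -/

set_option autoImplicit false

namespace Pool.Agent.H16F.H77

open MeasureTheory Complex Filter Topology intervalIntegral
open scoped Fin.NatCast

/-- radius of curvature: a constant and `n` bumps -/
noncomputable def rr (e η : ℝ) (n : ℕ) (L ψ : ℕ → ℝ) (s : ℝ) : ℝ :=
  e + ∑ k ∈ Finset.range n, L k * bm η (s - ψ k)

section

variable {e η : ℝ} {n : ℕ} {L ψ : ℕ → ℝ}

theorem rr_cont : Continuous (rr e η n L ψ) := by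
  unfold rr
  refine continuous_const.add (continuous_finsetSum _ fun k _ => ?_)
  exact continuous_const.mul (bm_cont.comp (continuous_id.sub continuous_const))

theorem rr_pos (he : 0 < e) (h0 : 0 < η) (h1 : η ≤ 1) (hL : ∀ k < n, 0 ≤ L k) (s : ℝ) :
    0 < rr e η n L ψ s := by
  unfold rr
  have : 0 ≤ ∑ k ∈ Finset.range n, L k * bm η (s - ψ k) :=
    Finset.sum_nonneg fun k hk => mul_nonneg (hL k (Finset.mem_range.1 hk)) (bm_nonneg h0 h1 _)
  linarith

theorem rr_per : Function.Periodic (rr e η n L ψ) (2 * Real.pi) := by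
  intro s
  unfold rr
  congr 1
  refine Finset.sum_congr rfl fun k _ => ?_
  rw [show s + 2 * Real.pi - ψ k = (s - ψ k) + 2 * Real.pi by ring, bm_per]

/-- integral of a sum of shifted bumps against `I e^{is}` -/
theorem int_rr (a b : ℝ) : cur (rr e η n L ψ) b - cur (rr e η n L ψ) a
    = (∫ s in a..b, (e : ℂ) * (I * Complex.exp (s * I)))
      + ∑ k ∈ Finset.range n, (L k : ℂ) * (I * Complex.exp (ψ k * I)) *
        ∫ s in a..b, (bm η (s - ψ k) : ℂ) * Complex.exp (((s - ψ k : ℝ) : ℂ) * I) := by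
  rw [cur_sub rr_cont]
  have hc : ∀ k, Continuous fun s : ℝ => (bm η (s - ψ k) : ℂ) * Complex.exp (((s - ψ k : ℝ) : ℂ) * I) := by
    intro k
    have h1 : Continuous fun s : ℝ => bm η (s - ψ k) := bm_cont.comp (continuous_id.sub continuous_const)
    have h2 : Continuous fun s : ℝ => ((s - ψ k : ℝ) : ℂ) := by fun_prop
    exact (Complex.continuous_ofReal.comp h1).mul (Complex.continuous_exp.comp (h2.mul continuous_const))
  have h1 : ∀ s : ℝ, igd (rr e η n L ψ) s = (e : ℂ) * (I * Complex.exp (s * I))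
      + ∑ k ∈ Finset.range n, (L k : ℂ) * (I * Complex.exp (ψ k * I)) *
        ((bm η (s - ψ k) : ℂ) * Complex.exp (((s - ψ k : ℝ) : ℂ) * I)) := by
    intro s
    unfold igd rr
    push_cast
    rw [add_mul, Finset.sum_mul]
    congr 1
    refine Finset.sum_congr rfl fun k _ => ?_
    have h2 : Complex.exp (s * I) = Complex.exp (ψ k * I) * Complex.exp (((s : ℂ) - ψ k) * I) := by
      rw [← Complex.exp_add]; congr 1; ring
    rw [h2]
    ring
  rw [intervalIntegral.integral_congr (g := fun s : ℝ => (e : ℂ) * (I * Complex.exp (s * I))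
      + ∑ k ∈ Finset.range n, (L k : ℂ) * (I * Complex.exp (ψ k * I)) *
        ((bm η (s - ψ k) : ℂ) * Complex.exp (((s - ψ k : ℝ) : ℂ) * I))) (fun s _ => h1 s)]
  rw [intervalIntegral.integral_add]
  · congr 1
    rw [intervalIntegral.integral_finsetSum]
    · refine Finset.sum_congr rfl fun k _ => ?_
      rw [intervalIntegral.integral_const_mul]
    · intro k _
      exact (continuous_const.mul (hc k)).intervalIntegrable _ _
  · exact Continuous.intervalIntegrable (by fun_prop) _ _
  · refine Continuous.intervalIntegrable ?_ _ _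
    exact continuous_finsetSum _ fun k _ => continuous_const.mul (hc k)

theorem int_e (a : ℝ) : ∫ s in a..(a + 2 * Real.pi), (e : ℂ) * (I * Complex.exp (s * I)) = 0 := by
  rw [intervalIntegral.integral_const_mul, intervalIntegral.integral_const_mul]
  have h1 : ∀ s : ℝ, Complex.exp (s * I) = Complex.exp (I * s) := fun s => by rw [mul_comm]
  simp only [h1]
  rw [integral_exp_mul_complex Complex.I_ne_zero]
  have : Complex.exp (I * ((a + 2 * Real.pi : ℝ) : ℂ)) = Complex.exp (I * a) := by
    rw [show (I * ((a + 2 * Real.pi : ℝ) : ℂ)) = I * a + 2 * Real.pi * I by push_cast; ring,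
      Complex.exp_add, Complex.exp_two_pi_mul_I, mul_one]
  rw [this]
  simp

/-- the curve closes -/
theorem rr_close {V : ℕ → ℂ} (hV : ∀ k < n, V (k + 1) - V k = (L k : ℂ) * (I * Complex.exp (ψ k * I)))
    (hVn : V n = V 0) : cur (rr e η n L ψ) (2 * Real.pi) = 0 := by
  have h0 : cur (rr e η n L ψ) 0 = 0 := by simp [cur]
  have h1 := int_rr (e := e) (η := η) (n := n) (L := L) (ψ := ψ) 0 (2 * Real.pi)
  rw [h0, sub_zero] at h1
  rw [h1]
  have h2 := int_e (e := e) 0
  rw [zero_add] at h2
  rw [h2, zero_add]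
  set c : ℂ := ∫ s in (0:ℝ)..2 * Real.pi, (bm η s : ℂ) * Complex.exp ((s : ℂ) * I) with hc
  have h3 : ∀ k, ∫ s in (0:ℝ)..2 * Real.pi, (bm η (s - ψ k) : ℂ) * Complex.exp (((s - ψ k : ℝ) : ℂ) * I)
      = c := by
    intro k
    rw [intervalIntegral.integral_comp_sub_right
      (fun t : ℝ => (bm η t : ℂ) * Complex.exp ((t : ℂ) * I)) (ψ k)]
    have hper : Function.Periodic (fun t : ℝ => (bm η t : ℂ) * Complex.exp ((t : ℂ) * I)) (2 * Real.pi) := by
      intro t
      simp only
      rw [bm_per]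
      congr 1
      push_cast
      rw [add_mul, Complex.exp_add, Complex.exp_two_pi_mul_I, mul_one]
    have h4 := hper.intervalIntegral_add_eq (0 - ψ k) 0
    rw [zero_add] at h4
    rw [hc, ← h4]
    congr 1
    ring
  simp only [h3]
  rw [← Finset.sum_mul]
  have h5 : ∑ k ∈ Finset.range n, (L k : ℂ) * (I * Complex.exp (ψ k * I)) = V n - V 0 := by
    rw [← Finset.sum_range_sub]
    exact Finset.sum_congr rfl fun k hk => (hV k (Finset.mem_range.1 hk)).symm
  rw [h5, hVn, sub_self, zero_mul]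

/-- the approximation -/
theorem rr_apx (he : 0 ≤ e) (h0 : 0 < η) (h1 : η ≤ 1) (hL : ∀ k < n, 0 ≤ L k) {a b : ℝ} (hab : a ≤ b)
    (hba : b ≤ a + 2 * Real.pi) (hg : ∀ k < n, ∫ s in a..b, bm η (s - ψ k) ≤ 1) :
    ‖cur (rr e η n L ψ) b - cur (rr e η n L ψ) a
      - ∑ k ∈ Finset.range n, ((∫ s in a..b, bm η (s - ψ k) : ℝ) : ℂ) *
        ((L k : ℂ) * (I * Complex.exp (ψ k * I)))‖
      ≤ e * (2 * Real.pi) + η * ∑ k ∈ Finset.range n, L k := by
  rw [int_rr, add_sub_assoc, ← Finset.sum_sub_distrib]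
  refine (norm_add_le _ _).trans (add_le_add ?_ ?_)
  · have h2 : ∀ s ∈ Set.uIoc a b, ‖(e : ℂ) * (I * Complex.exp ((s : ℂ) * I))‖ ≤ e := by
      intro s _
      rw [norm_mul, norm_mul, norm_I, Complex.norm_exp_ofReal_mul_I, Complex.norm_real,
        Real.norm_eq_abs, abs_of_nonneg he]
      simp
    have h3 := intervalIntegral.norm_integral_le_of_norm_le_const h2
    refine h3.trans ?_
    rw [abs_of_nonneg (by linarith)]
    exact mul_le_mul_of_nonneg_left (by linarith) he
  · rw [Finset.mul_sum]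
    refine (norm_sum_le _ _).trans (Finset.sum_le_sum fun k hk => ?_)
    have hk' := Finset.mem_range.1 hk
    have hcont1 : Continuous fun s : ℝ => bm η (s - ψ k) := bm_cont.comp (continuous_id.sub continuous_const)
    have hcont2 : Continuous fun s : ℝ => (bm η (s - ψ k) : ℂ) := Complex.continuous_ofReal.comp hcont1
    have hcont3 : Continuous fun s : ℝ => Complex.exp (((s - ψ k : ℝ) : ℂ) * I) := by
      have : Continuous fun s : ℝ => ((s - ψ k : ℝ) : ℂ) := by fun_prop
      exact Complex.continuous_exp.comp (this.mul continuous_const)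
    have h4 : ((∫ s in a..b, bm η (s - ψ k) : ℝ) : ℂ) = ∫ s in a..b, (bm η (s - ψ k) : ℂ) :=
      (intervalIntegral.integral_ofReal).symm
    have h5 : (L k : ℂ) * (I * Complex.exp (ψ k * I)) *
        (∫ s in a..b, (bm η (s - ψ k) : ℂ) * Complex.exp (((s - ψ k : ℝ) : ℂ) * I))
        - ((∫ s in a..b, bm η (s - ψ k) : ℝ) : ℂ) * ((L k : ℂ) * (I * Complex.exp (ψ k * I)))
        = (L k : ℂ) * (I * Complex.exp (ψ k * I)) *
          ∫ s in a..b, (bm η (s - ψ k) : ℂ) * (Complex.exp (((s - ψ k : ℝ) : ℂ) * I) - 1) := by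
      rw [h4, mul_comm (∫ s in a..b, (bm η (s - ψ k) : ℂ)) _, ← mul_sub,
        ← intervalIntegral.integral_sub]
      · congr 1
        congr 1
        ext s
        ring
      · exact (hcont2.mul hcont3).intervalIntegrable _ _
      · exact hcont2.intervalIntegrable _ _
    rw [h5, norm_mul, norm_mul, norm_mul, norm_I, Complex.norm_exp_ofReal_mul_I, Complex.norm_real,
      Real.norm_eq_abs, abs_of_nonneg (hL k hk'), mul_one, mul_one, mul_comm]
    refine mul_le_mul_of_nonneg_right ?_ (hL k hk')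
    calc ‖∫ s in a..b, (bm η (s - ψ k) : ℂ) * (Complex.exp (((s - ψ k : ℝ) : ℂ) * I) - 1)‖
        ≤ ∫ s in a..b, ‖(bm η (s - ψ k) : ℂ) * (Complex.exp (((s - ψ k : ℝ) : ℂ) * I) - 1)‖ :=
          intervalIntegral.norm_integral_le_integral_norm hab
      _ ≤ ∫ s in a..b, η * bm η (s - ψ k) := by
          refine intervalIntegral.integral_mono_on hab ?_ ?_ ?_
          · exact (hcont2.mul (hcont3.sub continuous_const)).norm.intervalIntegrable _ _
          · exact (continuous_const.mul hcont1).intervalIntegrable _ _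
          · intro s _
            rw [norm_mul, Complex.norm_real, Real.norm_eq_abs, abs_of_nonneg (bm_nonneg h0 h1 _)]
            exact bm_exp h0 h1 _
      _ = η * ∫ s in a..b, bm η (s - ψ k) := by rw [intervalIntegral.integral_const_mul]
      _ ≤ η * 1 := mul_le_mul_of_nonneg_left (hg k hk') h0.le
      _ = η := mul_one _

end

/-- DAPX -/
theorem dapx : DapxStatement := by
  intro n hn u H β hCP v hv ε hε
  have N : Nm u β := hCP.toNm
  have hn3 := H69.three_le N
  -- sequences
  set ψ : ℕ → ℝ := fun k => arg (u 0) + H69.S β 0 k with hψ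
  set L : ℕ → ℝ := fun k => len β H (k : Fin n) with hL
  set V : ℕ → ℂ := fun k => v (k : Fin n) with hV
  have hLpos : ∀ k, 0 < L k := fun k => hCP.side _
  have hu : ∀ k : ℕ, u (k : Fin n) = Complex.exp (ψ k * I) := by
    intro k
    have h1 := H69.u_add N 0 k
    rw [zero_add] at h1
    rw [h1]
    have h2 : u 0 = Complex.exp (arg (u 0) * I) := by
      have := Complex.norm_mul_exp_arg_mul_I (u 0)
      rw [N.unit 0] at this
      simpa using this.symm
    conv_lhs => rw [h2]
    rw [← Complex.exp_add]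
    congr 1
    simp only [hψ]
    push_cast
    ring
  have hVs : ∀ k < n, V (k + 1) - V k = (L k : ℂ) * (I * Complex.exp (ψ k * I)) := by
    intro k _
    simp only [hV, hL]
    rw [Nat.cast_succ, hv, ← hu k]
    ring
  have hVn : V n = V 0 := by
    simp only [hV]
    rw [Fin.natCast_self, Nat.cast_zero]
  -- gaps
  obtain ⟨i₀, hi₀⟩ := Finite.exists_min β
  set b := β i₀ with hb
  have hb0 : 0 < b := N.pos i₀
  set SL := ∑ k ∈ Finset.range n, L k with hSL
  have hSL0 : 0 ≤ SL := Finset.sum_nonneg fun k _ => (hLpos k).le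
  set η := min (b / 2) (min 1 (ε / (2 * (SL + 1)))) with hη
  have hη0 : 0 < η := by
    refine lt_min (by positivity) (lt_min one_pos (by positivity))
  have hη1 : η ≤ 1 := (min_le_right _ _).trans (min_le_left _ _)
  have hηb : 2 * η ≤ b := by
    have := min_le_left (b / 2) (min 1 (ε / (2 * (SL + 1))))
    linarith
  have hηS : η * SL < ε / 2 := by
    have h1 : η ≤ ε / (2 * (SL + 1)) := (min_le_right _ _).trans (min_le_right _ _)
    calc η * SL ≤ ε / (2 * (SL + 1)) * SL := mul_le_mul_of_nonneg_right h1 hSL0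
      _ < ε / (2 * (SL + 1)) * (SL + 1) := by
          apply mul_lt_mul_of_pos_left (by linarith) (by positivity)
      _ = ε / 2 := by field_simp
  have hgap1 : ∀ i k, i < k → 2 * η ≤ ψ k - ψ i := by
    intro i k hik
    have h1 := H69.S_le N 0 (Nat.succ_le_of_lt hik)
    have h2 := H69.S_succ β 0 i
    have h3 := hi₀ (0 + (i : Fin n))
    simp only [hψ]
    have h4 : H69.S β 0 i.succ = H69.S β 0 (i + 1) := rfl
    rw [h4, h2] at h1
    linarith
  have hgap2 : ∀ i k, k < n → ψ k - ψ i ≤ 2 * Real.pi - 2 * η := by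
    intro i k hk
    have h1 := H69.S_le N 0 (Nat.succ_le_of_lt hk)
    have h2 := H69.S_succ β 0 k
    have h3 := hi₀ (0 + (k : Fin n))
    have h4 : H69.S β 0 k.succ = H69.S β 0 (k + 1) := rfl
    have h5 := H69.S_le N 0 (Nat.zero_le i)
    rw [H69.S_zero] at h5
    rw [h4, h2, H69.S_full N] at h1
    simp only [hψ]
    linarith
  have hpi := Real.pi_gt_three
  set e := ε / (8 * Real.pi) with he
  have he0 : 0 < e := by positivity
  have hepi : e * (2 * Real.pi) = ε / 4 := by
    rw [he]; field_simp; ring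
  set ρ := rr e η n L ψ with hρ
  have hCurv : Curv ρ := ⟨rr_cont, rr_pos he0 hη0 hη1 fun k _ => (hLpos k).le, rr_per,
    rr_close hVs hVn⟩
  set x₀ := ψ 0 - η with hx₀
  -- weights
  have hw : ∀ x k, k < n → ∫ s in x₀..x, bm η (s - ψ k) = Bp η (x - ψ k) := by
    intro x k hk
    rw [intervalIntegral.integral_comp_sub_right (fun t => bm η t) (ψ k), ← Bp_sub,
      Bp_eq_zero (t := x₀ - ψ k) hη0, sub_zero]
    · rcases Nat.eq_zero_or_pos k with rfl | hk0
      · rw [hx₀]; linarith
      · have := hgap1 0 k hk0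
        rw [hx₀]; linarith
    · have := hgap2 0 k hk
      rw [hx₀]; linarith
  have hrange : ∀ x k, k < n → x₀ ≤ x → x ≤ x₀ + 2 * Real.pi →
      -(2 * Real.pi - η) ≤ x - ψ k ∧ x - ψ k ≤ 2 * Real.pi - η := by
    intro x k hk h1 h2
    constructor
    · have := hgap2 0 k hk
      rw [hx₀] at h1; linarith
    · rcases Nat.eq_zero_or_pos k with rfl | hk0
      · rw [hx₀] at h2; linarith
      · have := hgap1 0 k hk0
        rw [hx₀] at h2; linarith
  have hmain : ∀ x, x₀ ≤ x → x ≤ x₀ + 2 * Real.pi →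
      ‖(V 0 - cur ρ x₀ + cur ρ x) -
        (V 0 + ∑ k ∈ Finset.range n, (Bp η (x - ψ k) : ℂ) * (V (k + 1) - V k))‖ < ε := by
    intro x h1 h2
    have h3 := rr_apx (e := e) (η := η) (n := n) (L := L) (ψ := ψ) he0.le hη0 hη1
      (fun k _ => (hLpos k).le) h1 h2 (fun k hk => by
        rw [hw x k hk]
        exact (Bp_mem hη0 hη1 (hrange x k hk h1 h2).1 (hrange x k hk h1 h2).2).2)
    have h4 : ∑ k ∈ Finset.range n, ((∫ s in x₀..x, bm η (s - ψ k) : ℝ) : ℂ) *
        ((L k : ℂ) * (I * Complex.exp (ψ k * I)))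
        = ∑ k ∈ Finset.range n, (Bp η (x - ψ k) : ℂ) * (V (k + 1) - V k) := by
      refine Finset.sum_congr rfl fun k hk => ?_
      rw [hw x k (Finset.mem_range.1 hk), hVs k (Finset.mem_range.1 hk)]
    rw [h4] at h3
    have h5 : (V 0 - cur ρ x₀ + cur ρ x) -
        (V 0 + ∑ k ∈ Finset.range n, (Bp η (x - ψ k) : ℂ) * (V (k + 1) - V k))
        = cur (rr e η n L ψ) x - cur (rr e η n L ψ) x₀
          - ∑ k ∈ Finset.range n, (Bp η (x - ψ k) : ℂ) * (V (k + 1) - V k) := by
      rw [← hρ]; ring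
    rw [h5]
    refine h3.trans_lt ?_
    rw [hepi]
    linarith
  refine ⟨ρ, hCurv, V 0 - cur ρ x₀, ?_, ?_⟩
  · intro x
    obtain ⟨y, hy, hxy⟩ := (cur_periodic hCurv).exists_mem_Ico Real.two_pi_pos x x₀
    refine ⟨V 0 + ∑ k ∈ Finset.range n, (Bp η (y - ψ k) : ℂ) * (V (k + 1) - V k), ?_, ?_⟩
    · refine hull_mem (C := convexHull ℝ (Set.range v)) (convex_convexHull ℝ _)
        (fun k _ => subset_convexHull ℝ (Set.range v) ⟨(k : Fin n), rfl⟩) ?_ ?_ ?_
      · intro k hk
        exact (Bp_mem hη0 hη1 (hrange y k hk hy.1 hy.2.le).1 (hrange y k hk hy.1 hy.2.le).2).1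
      · intro k hk
        exact (Bp_mem hη0 hη1 (hrange y k hk hy.1 hy.2.le).1 (hrange y k hk hy.1 hy.2.le).2).2
      · intro k _
        apply Bp_mono hη0 hη1
        have := hgap1 k (k + 1) (by omega)
        linarith
    · rw [hxy]
      exact hmain y hy.1 hy.2.le
  · intro i
    refine ⟨ψ i.val - η, ?_⟩
    have hx1 : x₀ ≤ ψ i.val - η := by
      rcases Nat.eq_zero_or_pos i.val with h | h
      · rw [h]
      · have := hgap1 0 i.val h
        rw [hx₀]; linarith
    have hx2 : ψ i.val - η ≤ x₀ + 2 * Real.pi := by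
      have := hgap2 0 i.val i.2
      rw [hx₀]; linarith
    have h1 := hmain _ hx1 hx2
    have h2 : V 0 + ∑ k ∈ Finset.range n, (Bp η (ψ i.val - η - ψ k) : ℂ) * (V (k + 1) - V k)
        = v i := by
      have h3 : ∑ k ∈ Finset.range n, (Bp η (ψ i.val - η - ψ k) : ℂ) * (V (k + 1) - V k)
          = ∑ k ∈ Finset.range i.val, (V (k + 1) - V k) := by
        have hsub : Finset.range i.val ⊆ Finset.range n := Finset.range_subset_range.2 i.2.le
        rw [← Finset.sum_subset hsub]
        · refine Finset.sum_congr rfl fun k hk => ?_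
          have hk' := Finset.mem_range.1 hk
          have h4 := hgap1 k i.val hk'
          have h5 := hgap2 k i.val i.2
          rw [Bp_eq_one hη0 hη1 (by linarith) (by linarith), Complex.ofReal_one, one_mul]
        · intro k hk hk2
          have hk' := Finset.mem_range.1 hk
          have hk3 : i.val ≤ k := by
            by_contra hcon
            exact hk2 (Finset.mem_range.2 (by omega))
          have h5 := hgap2 i.val k hk'
          have h4 : 0 ≤ ψ k - ψ i.val := by
            rcases Nat.eq_or_lt_of_le hk3 with h | h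
            · rw [h]; simp
            · have := hgap1 i.val k h
              linarith
          rw [Bp_eq_zero hη0 (by linarith) (by linarith), Complex.ofReal_zero, zero_mul]
      rw [h3, Finset.sum_range_sub]
      simp only [hV]
      rw [Fin.cast_val_eq_self]
      ring
    rw [h2] at h1
    exact h1

end Pool.Agent.H16F.H77
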