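import Pool.Agent.Helper77_Fine.Mass

/-! # FINE part 3, module DMESH -/

set_option autoImplicit false

namespace Pool.Agent.H16F.H77

open MeasureTheory Complex Filter Topology intervalIntegral

theorem fin_add_one_val {n : ℕ} [NeZero n] (i : Fin n) : ((i + 1 : Fin n) : ℕ) = (i.val + 1) % n := by
  rw [Fin.val_add, Fin.val_one']
  simp

theorem fin_two {n : ℕ} [NeZero n] : (2 : Fin n) = 1 + 1 := by
  ext
  rw [Fin.val_add, Fin.val_one', ← Nat.add_mod]
  rfl

/-- DMESH -/
theorem dmesh (hD : DcurStatement) : DmeshStatement := by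
  intro ρ hC δ hδ
  obtain ⟨m, hm, hmin⟩ := exists_min hC
  have hρ := hC.1
  have hp := hC.2.1
  set S := Ms ρ (2 * Real.pi) with hS
  have hmono := Ms_strict hρ hp
  have hS0 : 0 < S := by
    have := hmono Real.two_pi_pos
    simpa [Ms, hS] using this
  set η : ℝ := min δ 1 / 4 with hη
  have hmin1 : 0 < min δ 1 := lt_min hδ one_pos
  have hη0 : 0 < η := by positivity
  have hη1 : 4 * η ≤ 1 := by
    have := min_le_right δ 1
    rw [hη]; linarith
  have hηδ : 4 * η ≤ δ := by
    have := min_le_left δ 1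
    rw [hη]; linarith
  obtain ⟨N₁, hN₁⟩ := exists_nat_gt (S / (m * η))
  obtain ⟨N₂, hN₂⟩ := exists_nat_gt (S / δ)
  refine ⟨max 5 (max N₁ N₂), fun n hn => ?_⟩
  intro hnz
  have hn5 : 5 ≤ n := (le_max_left _ _).trans hn
  have hn1 : N₁ ≤ n := (le_max_left _ _).trans ((le_max_right _ _).trans hn)
  have hn2 : N₂ ≤ n := (le_max_right _ _).trans ((le_max_right _ _).trans hn)
  have hn0 : (0:ℝ) < n := by
    have : (5:ℝ) ≤ n := by exact_mod_cast hn5
    linarith
  have hn1' : (N₁:ℝ) ≤ n := by exact_mod_cast hn1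
  have hn2' : (N₂:ℝ) ≤ n := by exact_mod_cast hn2
  set g : ℝ := S / n with hg
  have hg0 : 0 < g := by positivity
  have hgm : g / m < η := by
    rw [hg, div_div, div_lt_iff₀ (by positivity)]
    rw [div_lt_iff₀ (by positivity)] at hN₁
    nlinarith only [hn1', hN₁, mul_pos hm hη0]
  have hgδ : g < δ := by
    rw [hg, div_lt_iff₀ hn0]
    rw [div_lt_iff₀ hδ] at hN₂
    nlinarith only [hN₂, hδ, hn2']
  choose th hth using Ms_surj hC
  have hinj := hmono.injective
  have hth_per : ∀ y (k : ℤ), th (y + k * S) = th y + k * (2 * Real.pi) := by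
    intro y k
    apply hinj
    rw [hth, Ms_per hC, hth]
  set w : ℤ → ℂ := fun k => cur ρ (th (k * g)) with hw
  have hwper : ∀ k q : ℤ, w (k + n * q) = w k := by
    intro k q
    simp only [hw]
    have : ((k + n * q : ℤ) : ℝ) * g = k * g + q * S := by
      push_cast
      rw [hg]
      field_simp
    rw [this, hth_per]
    exact (cur_periodic hC).int_mul q _
  have hwmod : ∀ k : ℕ, w ((k % n : ℕ) : ℤ) = w k := by
    intro k
    have h1 : (k : ℤ) = ((k % n : ℕ) : ℤ) + n * ((k / n : ℕ) : ℤ) := by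
      exact_mod_cast (Nat.mod_add_div k n).symm
    rw [h1, hwper]
  have hthm : StrictMono th := by
    intro x y hxy
    rw [← hmono.lt_iff_lt, hth, hth]
    exact hxy
  -- gaps
  have hgap : ∀ k : ℤ, th (k * g) < th ((k + 1 : ℤ) * g) ∧ th ((k + 1 : ℤ) * g) - th (k * g) ≤ η := by
    intro k
    have h1 : th (k * g) < th ((k + 1 : ℤ) * g) := by
      apply hthm
      push_cast
      linarith only [hg0]
    refine ⟨h1, ?_⟩
    have h2 := Ms_lower hρ hmin h1.le
    rw [hth, hth] at h2
    push_cast at h2 ⊢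
    have h3 : th ((k + 1) * g) - th (k * g) ≤ g / m := by
      rw [le_div_iff₀ hm]
      linarith
    linarith
  have hmass : ∀ k : ℤ, ∫ s in th (k * g)..th ((k + 1 : ℤ) * g), ρ s = g := by
    intro k
    rw [← Ms_sub hρ, hth, hth]
    push_cast
    ring
  set v : Fin n → ℂ := fun i => w i.val with hv
  have hv1 : ∀ i : Fin n, v (i + 1) = w ((i.val : ℤ) + 1) := by
    intro i
    simp only [hv]
    rw [fin_add_one_val, hwmod]
    push_cast
    rfl
  have hv2 : ∀ i : Fin n, v (i + 2) = w ((i.val : ℤ) + 2) := by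
    intro i
    have h1 : i + 2 = (i + 1) + 1 := by
      rw [add_assoc, fin_two]
    rw [h1, hv1, fin_add_one_val]
    have h2 := hwmod (i.val + 1)
    have h3 : ((i.val + 1 : ℕ) : ℤ) = (((i.val + 1) % n : ℕ) : ℤ) + n * (((i.val + 1) / n : ℕ) : ℤ) := by
      exact_mod_cast (Nat.mod_add_div (i.val + 1) n).symm
    have h4 : (i.val : ℤ) + 2 = ((((i.val + 1) % n : ℕ) : ℤ) + 1) + n * (((i.val + 1) / n : ℕ) : ℤ) := by
      push_cast at h3 ⊢
      linarith only [h3]
    rw [h4, hwper]
  have hchord_up : ∀ k : ℤ, ‖w (k + 1) - w k‖ ≤ g := by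
    intro k
    have := norm_cur_sub_le hρ (fun x => (hp x).le) (hgap k).1.le
    rw [hmass k] at this
    exact this
  have hchord_lo : ∀ k : ℤ, 10 / 19 * g < ‖w (k + 1) - w k‖ := by
    intro k
    have h1 := le_norm_cur_sub hρ (fun x => (hp x).le) (hgap k).1.le (κ := 31/32) (by
      intro s hs
      have h2 := Real.one_sub_sq_div_two_le_cos (x := s - th (k * g))
      have h3 : 0 ≤ s - th (k * g) := by linarith only [hs.1]
      have h4 : s - th (k * g) ≤ 1 / 4 := by linarith only [hη1, hs.2, (hgap k).2]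
      nlinarith only [h2, h4, h3])
    rw [hmass k] at h1
    have h2 : 31 / 32 * g ≤ ‖w (k + 1) - w k‖ := h1
    linarith only [hg0, h1]
  refine ⟨v, ?_, ?_, ?_, fun i => ⟨_, rfl⟩, ?_⟩
  · -- CCW
    refine hD ρ hC n (fun i => th (((i.val : ℤ) : ℝ) * g)) ?_ ?_
    · intro i j hij
      apply hthm
      have : (i.val : ℝ) < j.val := by exact_mod_cast hij
      push_cast
      exact mul_lt_mul_of_pos_right this hg0
    · intro i j
      have h1 := hth_per (((i.val : ℤ) : ℝ) * g) 1
      rw [Int.cast_one, one_mul, one_mul] at h1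
      rw [← h1]
      apply hthm
      have h2 : (j.val : ℝ) < n := by exact_mod_cast j.2
      have h3 : (0:ℝ) ≤ (i.val : ℝ) := by positivity
      have h4 : S = n * g := by rw [hg]; field_simp
      push_cast
      nlinarith only [h4, hS0, h2]
  · intro i
    rw [hv1, hv2]
    have h1 := turn_lt hρ hp (hgap i.val).1 (hgap ((i.val : ℤ) + 1)).1 hη0 hη1 (hgap i.val).2
      (hgap ((i.val : ℤ) + 1)).2
    have h2 : (i.val : ℤ) + 1 + 1 = (i.val : ℤ) + 2 := by ring
    rw [h2] at h1
    exact lt_of_lt_of_le h1 hηδ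
  · intro i j
    rw [hv1, hv1]
    have h1 := hchord_up i.val
    have h2 := hchord_lo j.val
    have h3 : ‖w ((i.val : ℤ) + 1) - v i‖ ≤ g := h1
    have h4 : 10 / 19 * g < ‖w ((j.val : ℤ) + 1) - v j‖ := h2
    linarith only [h1, h2]
  · intro x
    set k : ℤ := ⌊Ms ρ x / g⌋ with hk
    have h1 : (k : ℝ) * g ≤ Ms ρ x := by
      have := Int.floor_le (Ms ρ x / g)
      rw [← hk, le_div_iff₀ hg0] at this
      exact this
    have h2 : Ms ρ x < (k + 1) * g := by
      have := Int.lt_floor_add_one (Ms ρ x / g)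
      rw [← hk, div_lt_iff₀ hg0] at this
      exact this
    have h3 : th (k * g) ≤ x := by
      rw [← hmono.le_iff_le, hth]
      exact h1
    have h4 := norm_cur_sub_le hρ (fun x => (hp x).le) h3
    rw [← Ms_sub hρ, hth] at h4
    have hnz' : (n : ℤ) ≠ 0 := by omega
    have h5 : 0 ≤ k % n := Int.emod_nonneg _ hnz'
    have h6 : k % n < n := Int.emod_lt_of_pos _ (by omega)
    refine ⟨⟨(k % n).toNat, by omega⟩, ?_⟩
    have h7 : v ⟨(k % n).toNat, by omega⟩ = w k := by
      simp only [hv]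
      rw [Int.toNat_of_nonneg h5]
      conv_rhs => rw [← Int.emod_add_mul_ediv k n]
      rw [hwper]
    rw [h7]
    calc ‖cur ρ x - w k‖ ≤ Ms ρ x - k * g := h4
      _ < g := by linarith only [h2]
      _ < δ := hgδ

end Pool.Agent.H16F.H77
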