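import Pool.Agent.Helper77_Fine.Mass

/-! # FINE part 3, helper77: a periodic bump function, convex combinations -/

set_option autoImplicit false

namespace Pool.Agent.H16F.H77

open MeasureTheory Complex Filter Topology intervalIntegral

/-- unnormalised bump -/
noncomputable def bm0 (η s : ℝ) : ℝ := max (Real.cos s - Real.cos η) 0

/-- the bump -/
noncomputable def bm (η s : ℝ) : ℝ := bm0 η s / ∫ t in (-η)..η, bm0 η t

theorem bm0_cont (η : ℝ) : Continuous (bm0 η) := by unfold bm0; fun_prop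
theorem bm0_nonneg (η s : ℝ) : 0 ≤ bm0 η s := le_max_right _ _

theorem Z_pos {η : ℝ} (h0 : 0 < η) (h1 : η ≤ 1) : 0 < ∫ t in (-η)..η, bm0 η t := by
  refine intervalIntegral_pos_of_pos_on ((bm0_cont η).intervalIntegrable _ _) ?_ (by linarith)
  intro s hs
  have hpi := Real.pi_gt_three
  unfold bm0
  apply lt_max_of_lt_left
  rw [sub_pos, ← Real.cos_abs s]
  apply Real.cos_lt_cos_of_nonneg_of_le_pi (abs_nonneg s) (by linarith)
  exact abs_lt.2 ⟨hs.1, hs.2⟩

section
variable {η : ℝ}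

theorem bm_cont : Continuous (bm η) := (bm0_cont η).div_const _

theorem bm_nonneg (h0 : 0 < η) (h1 : η ≤ 1) (s : ℝ) : 0 ≤ bm η s :=
  div_nonneg (bm0_nonneg η s) (Z_pos h0 h1).le

theorem bm_per (s : ℝ) : bm η (s + 2 * Real.pi) = bm η s := by
  unfold bm bm0
  rw [Real.cos_add_two_pi]

theorem bm_zero {s : ℝ} (h : Real.cos s ≤ Real.cos η) : bm η s = 0 := by
  unfold bm bm0
  rw [max_eq_right (by linarith), zero_div]

theorem cos_le_of {s : ℝ} (h0 : 0 < η) (h1 : η ≤ s) (h2 : s ≤ 2 * Real.pi - η) :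
    Real.cos s ≤ Real.cos η := by
  have hpi := Real.pi_pos
  rcases le_total s Real.pi with h | h
  · exact Real.cos_le_cos_of_nonneg_of_le_pi h0.le h h1
  · rw [← Real.cos_two_pi_sub s]
    exact Real.cos_le_cos_of_nonneg_of_le_pi h0.le (by linarith) (by linarith)

theorem cos_le_of' {s : ℝ} (h0 : 0 < η) (h1 : s ≤ -η) (h2 : -(2 * Real.pi - η) ≤ s) :
    Real.cos s ≤ Real.cos η := by
  rw [← Real.cos_neg]
  exact cos_le_of h0 (by linarith) (by linarith)

/-- primitive of the bump -/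
noncomputable def Bp (η t : ℝ) : ℝ := ∫ s in (-η)..t, bm η s

theorem Bp_sub (a b : ℝ) : Bp η b - Bp η a = ∫ s in a..b, bm η s := by
  unfold Bp
  exact integral_interval_sub_left (bm_cont.intervalIntegrable _ _) (bm_cont.intervalIntegrable _ _)

theorem Bp_mono (h0 : 0 < η) (h1 : η ≤ 1) : Monotone (Bp η) := by
  intro a b hab
  have : 0 ≤ Bp η b - Bp η a := by
    rw [Bp_sub]
    exact intervalIntegral.integral_nonneg hab (fun s _ => bm_nonneg h0 h1 s)
  linarith

theorem Bp_neg : Bp η (-η) = 0 := by simp [Bp]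

theorem Bp_one (h0 : 0 < η) (h1 : η ≤ 1) : Bp η η = 1 := by
  unfold Bp bm
  rw [intervalIntegral.integral_div, div_self (Z_pos h0 h1).ne']

theorem Bp_eq_zero (h0 : 0 < η) {t : ℝ} (h2 : t ≤ -η) (h3 : -(2 * Real.pi - η) ≤ t) :
    Bp η t = 0 := by
  have h := Bp_sub (η := η) t (-η)
  rw [Bp_neg] at h
  have h4 : ∫ s in t..(-η), bm η s = 0 := by
    rw [intervalIntegral.integral_congr (g := fun _ => (0:ℝ))]
    · simp
    · intro s hs
      rw [Set.uIcc_of_le h2] at hs
      exact bm_zero (cos_le_of' h0 hs.2 (by linarith [hs.1]))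
  rw [h4] at h
  linarith

theorem Bp_eq_one (h0 : 0 < η) (h1 : η ≤ 1) {t : ℝ} (h2 : η ≤ t) (h3 : t ≤ 2 * Real.pi - η) :
    Bp η t = 1 := by
  have h := Bp_sub (η := η) η t
  rw [Bp_one h0 h1] at h
  have h4 : ∫ s in η..t, bm η s = 0 := by
    rw [intervalIntegral.integral_congr (g := fun _ => (0:ℝ))]
    · simp
    · intro s hs
      rw [Set.uIcc_of_le h2] at hs
      exact bm_zero (cos_le_of h0 hs.1 (by linarith [hs.2]))
  rw [h4] at h
  linarith

theorem Bp_mem (h0 : 0 < η) (h1 : η ≤ 1) {t : ℝ} (h2 : -(2 * Real.pi - η) ≤ t)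
    (h3 : t ≤ 2 * Real.pi - η) : 0 ≤ Bp η t ∧ Bp η t ≤ 1 := by
  have hpi := Real.pi_gt_three
  constructor
  · rw [← Bp_eq_zero (t := -(2 * Real.pi - η)) h0 (by linarith) le_rfl]
    exact Bp_mono h0 h1 h2
  · rw [← Bp_eq_one (t := 2 * Real.pi - η) h0 h1 (by linarith) le_rfl]
    exact Bp_mono h0 h1 h3

/-- the support of the bump is small -/
theorem bm_exp (h0 : 0 < η) (h1 : η ≤ 1) (t : ℝ) :
    bm η t * ‖Complex.exp (t * I) - 1‖ ≤ η * bm η t := by
  by_cases h : Real.cos t ≤ Real.cos η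
  · rw [bm_zero h]; simp
  push Not at h
  have h2 : ‖Complex.exp (t * I) - 1‖ ≤ η := by
    have h3 : ‖Complex.exp (t * I) - 1‖ ^ 2 = 2 - 2 * Real.cos t := by
      rw [← Complex.normSq_eq_norm_sq, Complex.normSq_apply, Complex.sub_re, Complex.sub_im,
        Complex.exp_ofReal_mul_I_re, Complex.exp_ofReal_mul_I_im, Complex.one_re, Complex.one_im]
      have := Real.sin_sq_add_cos_sq t
      nlinarith
    have h4 := Real.one_sub_sq_div_two_le_cos (x := η)
    have h5 : ‖Complex.exp (t * I) - 1‖ ^ 2 ≤ η ^ 2 := by rw [h3]; linarith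
    exact (sq_le_sq₀ (norm_nonneg _) h0.le).1 h5
  rw [mul_comm]
  exact mul_le_mul_of_nonneg_right h2 (bm_nonneg h0 h1 t)

end

/-- convex combinations along a polygon -/
theorem hull_mem {C : Set ℂ} (hC : Convex ℝ C) {V : ℕ → ℂ} {m : ℕ} (hV : ∀ k ≤ m, V k ∈ C)
    {g : ℕ → ℝ} (h0 : ∀ k < m, 0 ≤ g k) (h1 : ∀ k < m, g k ≤ 1)
    (hanti : ∀ k, k + 1 < m → g (k + 1) ≤ g k) :
    V 0 + ∑ k ∈ Finset.range m, (g k : ℂ) * (V (k + 1) - V k) ∈ C := by
  set G : ℕ → ℝ := fun k => if k = 0 then 1 else if k ≤ m then g (k - 1) else 0 with hG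
  have hG0 : G 0 = 1 := by simp [hG]
  have hGs : ∀ k, k < m → G (k + 1) = g k := by
    intro k hk
    simp only [hG]
    rw [if_neg (by omega), if_pos (by omega)]
    simp
  have hGm : G (m + 1) = 0 := by
    simp only [hG]
    rw [if_neg (by omega), if_neg (by omega)]
  have hsum : ∀ l, ∑ k ∈ Finset.range (l + 1), (G k - G (k + 1)) • V k
      = V 0 + ∑ k ∈ Finset.range l, (G (k + 1) : ℂ) * (V (k + 1) - V k) - (G (l + 1) : ℂ) * V l := by
    intro l
    induction l with
    | zero => simp [hG0]; ring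
    | succ l ih =>
      rw [Finset.sum_range_succ, ih, Finset.sum_range_succ _ l]
      simp only [Complex.real_smul]
      push_cast
      ring
  have h2 : V 0 + ∑ k ∈ Finset.range m, (g k : ℂ) * (V (k + 1) - V k)
      = ∑ k ∈ Finset.range (m + 1), (G k - G (k + 1)) • V k := by
    rw [hsum m, hGm]
    simp only [Complex.ofReal_zero, zero_mul, sub_zero]
    congr 1
    refine Finset.sum_congr rfl fun k hk => ?_
    rw [hGs k (Finset.mem_range.1 hk)]
  rw [h2]
  refine hC.sum_mem ?_ ?_ (fun k hk => hV k (by have := Finset.mem_range.1 hk; omega))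
  · intro k hk
    have hk' : k < m + 1 := Finset.mem_range.1 hk
    rw [sub_nonneg]
    rcases Nat.eq_zero_or_pos k with rfl | hkp
    · rw [hG0]
      rcases Nat.eq_zero_or_pos m with rfl | hm
      · rw [hGm]; exact zero_le_one
      · rw [hGs 0 hm]; exact h1 0 hm
    · obtain ⟨l, rfl⟩ : ∃ l, k = l + 1 := ⟨k - 1, by omega⟩
      rw [hGs l (by omega)]
      rcases Nat.lt_or_ge (l + 1) m with h | h
      · rw [hGs (l + 1) h]; exact hanti l h
      · have : l + 1 = m := by omega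
        rw [this, hGm]
        exact h0 l (by omega)
  · rw [Finset.sum_range_sub', hG0, hGm, sub_zero]

end Pool.Agent.H16F.H77
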