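import Pool.Agent.Helper16_Fine.Stmt3

/-! # FINE part 3, helper77: basic facts on convex curves -/

set_option autoImplicit false

namespace Pool.Agent.H16F.H77

open MeasureTheory Complex Filter Topology intervalIntegral

/-- the integrand of the curve -/
noncomputable def igd (ρ : ℝ → ℝ) (s : ℝ) : ℂ := (ρ s : ℂ) * (I * Complex.exp (s * I))

theorem igd_cont {ρ : ℝ → ℝ} (h : Continuous ρ) : Continuous (igd ρ) := by
  unfold igd
  fun_prop

theorem norm_igd {ρ : ℝ → ℝ} (hp : ∀ x, 0 ≤ ρ x) (s : ℝ) : ‖igd ρ s‖ = ρ s := by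
  unfold igd
  rw [norm_mul, norm_mul, norm_I, Complex.norm_exp_ofReal_mul_I, one_mul, mul_one,
    Complex.norm_real, Real.norm_eq_abs, abs_of_nonneg (hp s)]

theorem cur_sub {ρ : ℝ → ℝ} (h : Continuous ρ) (a b : ℝ) :
    cur ρ b - cur ρ a = ∫ s in a..b, igd ρ s := by
  unfold cur
  exact integral_interval_sub_left ((igd_cont h).intervalIntegrable _ _)
    ((igd_cont h).intervalIntegrable _ _)

theorem cur_im {ρ : ℝ → ℝ} (h : Continuous ρ) (a b : ℝ) (c : ℂ) :
    (c * (cur ρ b - cur ρ a)).im = ∫ s in a..b, ρ s * (c * (I * Complex.exp (s * I))).im := by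
  rw [cur_sub h, ← intervalIntegral.integral_const_mul]
  have hint : IntervalIntegrable (fun s => c * igd ρ s) volume a b :=
    (continuous_const.mul (igd_cont h)).intervalIntegrable a b
  have h1 := (Complex.imCLM).intervalIntegral_comp_comm hint
  simp only [Complex.imCLM_apply] at h1
  rw [← h1]
  congr 1
  ext s
  unfold igd
  rw [mul_left_comm, Complex.im_ofReal_mul]

theorem cur_periodic {ρ : ℝ → ℝ} (h : Curv ρ) : Function.Periodic (cur ρ) (2 * Real.pi) := by
  intro x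
  have h1 := cur_sub h.1 x (x + 2 * Real.pi)
  have hper : Function.Periodic (igd ρ) (2 * Real.pi) := by
    intro s
    unfold igd
    rw [h.2.2.1 s]
    congr 2
    push_cast
    rw [add_mul, Complex.exp_add, Complex.exp_two_pi_mul_I, mul_one]
  rw [hper.intervalIntegral_add_eq x 0, zero_add] at h1
  have h2 : ∫ s in (0:ℝ)..2 * Real.pi, igd ρ s = 0 := h.2.2.2
  rw [h2, sub_eq_zero] at h1
  exact h1

/-- positivity -/
theorem cur_im_pos {ρ : ℝ → ℝ} (h : Continuous ρ) (hp : ∀ x, 0 < ρ x) {a b : ℝ} (hab : a < b)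
    {c : ℂ} (hc : ∀ s ∈ Set.Icc a b, 0 < (c * (I * Complex.exp (s * I))).im) :
    0 < (c * (cur ρ b - cur ρ a)).im := by
  rw [cur_im h]
  refine intervalIntegral_pos_of_pos_on ?_ (fun s hs => mul_pos (hp s) (hc s ⟨hs.1.le, hs.2.le⟩)) hab
  refine Continuous.intervalIntegrable ?_ _ _
  fun_prop

theorem norm_cur_sub_le {ρ : ℝ → ℝ} (h : Continuous ρ) (hp : ∀ x, 0 ≤ ρ x) {a b : ℝ} (hab : a ≤ b) :
    ‖cur ρ b - cur ρ a‖ ≤ ∫ s in a..b, ρ s := by
  rw [cur_sub h]
  have h1 := intervalIntegral.norm_integral_le_integral_norm (f := igd ρ) (μ := volume) hab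
  simp only [norm_igd hp] at h1
  exact h1

/-- lower bound for chords -/
theorem le_norm_cur_sub {ρ : ℝ → ℝ} (h : Continuous ρ) (hp : ∀ x, 0 ≤ ρ x) {a b κ : ℝ} (hab : a ≤ b)
    (hκ : ∀ s ∈ Set.Icc a b, κ ≤ Real.cos (s - a)) :
    κ * (∫ s in a..b, ρ s) ≤ ‖cur ρ b - cur ρ a‖ := by
  set c : ℂ := Complex.exp (-(a * I)) with hc
  have hcn : ‖c‖ = 1 := by
    rw [hc, ← neg_mul, ← Complex.ofReal_neg, Complex.norm_exp_ofReal_mul_I]
  have h1 : (c * (cur ρ b - cur ρ a)).im ≤ ‖cur ρ b - cur ρ a‖ := by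
    calc (c * (cur ρ b - cur ρ a)).im ≤ |(c * (cur ρ b - cur ρ a)).im| := le_abs_self _
      _ ≤ ‖c * (cur ρ b - cur ρ a)‖ := Complex.abs_im_le_norm _
      _ = _ := by rw [norm_mul, hcn, one_mul]
  refine le_trans ?_ h1
  rw [cur_im h, ← intervalIntegral.integral_const_mul]
  refine intervalIntegral.integral_mono_on hab ?_ ?_ ?_
  · exact (continuous_const.mul h).intervalIntegrable _ _
  · refine Continuous.intervalIntegrable ?_ _ _
    fun_prop
  · intro s hs
    have h2 : (c * (I * Complex.exp (s * I))).im = Real.cos (s - a) := by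
      rw [hc, mul_left_comm, ← Complex.exp_add]
      have : (-(a * I) + s * I : ℂ) = ((s - a : ℝ) : ℂ) * I := by push_cast; ring
      rw [this, Complex.exp_mul_I, ← Complex.ofReal_cos, ← Complex.ofReal_sin]
      generalize Real.cos (s - a) = u
      generalize Real.sin (s - a) = v
      simp
    rw [h2, mul_comm]
    exact mul_le_mul_of_nonneg_left (hκ s hs) (hp s)

end Pool.Agent.H16F.H77
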