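import Pool.Agent.Helper77_Fine.Cur

/-! # FINE part 3, helper77: mass function of a convex curve, turning angles -/

set_option autoImplicit false

namespace Pool.Agent.H16F.H77

open MeasureTheory Complex Filter Topology intervalIntegral

/-- the mass -/
noncomputable def Ms (ρ : ℝ → ℝ) (x : ℝ) : ℝ := ∫ s in (0:ℝ)..x, ρ s

theorem Ms_sub {ρ : ℝ → ℝ} (h : Continuous ρ) (a b : ℝ) : Ms ρ b - Ms ρ a = ∫ s in a..b, ρ s := by
  unfold Ms
  exact integral_interval_sub_left (h.intervalIntegrable _ _) (h.intervalIntegrable _ _)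

theorem Ms_strict {ρ : ℝ → ℝ} (h : Continuous ρ) (hp : ∀ x, 0 < ρ x) : StrictMono (Ms ρ) := by
  intro a b hab
  have h1 : 0 < Ms ρ b - Ms ρ a := by
    rw [Ms_sub h]
    exact intervalIntegral_pos_of_pos (h.intervalIntegrable _ _) hp hab
  linarith

theorem Ms_cont {ρ : ℝ → ℝ} (h : Continuous ρ) : Continuous (Ms ρ) :=
  intervalIntegral.continuous_primitive (fun _ _ => h.intervalIntegrable _ _) 0

theorem Ms_lower {ρ : ℝ → ℝ} (h : Continuous ρ) {m : ℝ} (hm : ∀ x, m ≤ ρ x) {a b : ℝ}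
    (hab : a ≤ b) : m * (b - a) ≤ Ms ρ b - Ms ρ a := by
  rw [Ms_sub h]
  calc m * (b - a) = ∫ _ in a..b, m := by
        rw [intervalIntegral.integral_const, smul_eq_mul, mul_comm]
    _ ≤ _ := intervalIntegral.integral_mono_on hab
        (continuous_const.intervalIntegrable _ _) (h.intervalIntegrable _ _) (fun s _ => hm s)

theorem exists_min {ρ : ℝ → ℝ} (h : Curv ρ) : ∃ m : ℝ, 0 < m ∧ ∀ x, m ≤ ρ x := by
  have hpi : (0:ℝ) < 2 * Real.pi := Real.two_pi_pos
  obtain ⟨x₀, -, hx₀⟩ := isCompact_Icc.exists_isMinOn (s := Set.Icc (0:ℝ) (2 * Real.pi))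
    ⟨0, by simp [hpi.le]⟩ h.1.continuousOn
  refine ⟨ρ x₀, h.2.1 x₀, fun x => ?_⟩
  obtain ⟨y, hy, hxy⟩ := h.2.2.1.exists_mem_Ico₀ hpi x
  rw [hxy]
  exact hx₀ ⟨hy.1, hy.2.le⟩

theorem Ms_per {ρ : ℝ → ℝ} (h : Curv ρ) (x : ℝ) (k : ℤ) :
    Ms ρ (x + k * (2 * Real.pi)) = Ms ρ x + k * Ms ρ (2 * Real.pi) := by
  have hpi : (0:ℝ) < 2 * Real.pi := Real.two_pi_pos
  set S := Ms ρ (2 * Real.pi) with hS
  have h1 : Function.Periodic (fun x => Ms ρ x - S / (2 * Real.pi) * x) (2 * Real.pi) := by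
    intro x
    have h2 := Ms_sub h.1 x (x + 2 * Real.pi)
    rw [h.2.2.1.intervalIntegral_add_eq x 0, zero_add] at h2
    have h3 : ∫ s in (0:ℝ)..2 * Real.pi, ρ s = S := rfl
    rw [h3] at h2
    simp only
    have h4 : S / (2 * Real.pi) * (x + 2 * Real.pi) = S / (2 * Real.pi) * x + S := by
      field_simp
    rw [h4]
    linarith
  have h5 := h1.int_mul k x
  have h6 : S / (2 * Real.pi) * (x + k * (2 * Real.pi)) = S / (2 * Real.pi) * x + k * S := by
    field_simp
  rw [h6] at h5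
  linarith

theorem Ms_surj {ρ : ℝ → ℝ} (h : Curv ρ) (y : ℝ) : ∃ x, Ms ρ x = y := by
  obtain ⟨m, hm, hmin⟩ := exists_min h
  have h0 : Ms ρ 0 = 0 := by simp [Ms]
  have hb : 0 ≤ |y| / m := by positivity
  have h1 := Ms_lower h.1 hmin hb
  have h2 := Ms_lower h.1 hmin (neg_nonpos.2 hb)
  rw [h0] at h1 h2
  have h3 : m * (|y| / m) = |y| := by field_simp
  have h4 := intermediate_value_Icc (f := Ms ρ) (a := -(|y| / m)) (b := |y| / m) (by linarith)
    (Ms_cont h.1).continuousOn
  have h5 : y ∈ Set.Icc (Ms ρ (-(|y| / m))) (Ms ρ (|y| / m)) := by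
    constructor
    · have := neg_abs_le y
      rw [sub_neg_eq_add, zero_add, h3] at h2
      linarith
    · have := le_abs_self y
      rw [sub_zero, h3] at h1
      linarith
  obtain ⟨x, -, hx⟩ := h4 h5
  exact ⟨x, hx⟩

/-- a bound for the argument -/
theorem arg_lt_of {z : ℂ} {δ : ℝ} (h0 : 0 ≤ δ) (hre : 0 < z.re)
    (him : (z * Complex.exp (-(δ * I))).im < 0) : arg z < δ := by
  by_contra hc
  push Not at hc
  have h1 : |arg z| < Real.pi / 2 := Complex.abs_arg_lt_pi_div_two_iff.2 (Or.inl hre)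
  have h2 : z * Complex.exp (-(δ * I)) = ‖z‖ * Complex.exp (((arg z - δ : ℝ) : ℂ) * I) := by
    conv_lhs => rw [← Complex.norm_mul_exp_arg_mul_I z]
    rw [mul_assoc, ← Complex.exp_add]
    congr 2
    push_cast
    ring
  rw [h2, Complex.im_ofReal_mul, Complex.exp_ofReal_mul_I_im] at him
  have h3 : 0 ≤ Real.sin (arg z - δ) := by
    apply Real.sin_nonneg_of_nonneg_of_le_pi
    · linarith
    · have := (abs_lt.1 h1).2
      have := Real.pi_pos
      linarith
  have := mul_nonneg (norm_nonneg z) h3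
  linarith

/-- turning angle between two consecutive chords -/
theorem turn_lt {ρ : ℝ → ℝ} (h : Continuous ρ) (hp : ∀ x, 0 < ρ x) {a b c η : ℝ} (hab : a < b)
    (hbc : b < c) (hη : 0 < η) (hη1 : 4 * η ≤ 1) (h1 : b - a ≤ η) (h2 : c - b ≤ η) :
    arg ((cur ρ c - cur ρ b) / (cur ρ b - cur ρ a)) < 4 * η := by
  set E := cur ρ b - cur ρ a with hE
  set E' := cur ρ c - cur ρ b with hE'
  have hpi := Real.pi_gt_three
  -- the chord is not zero and conj trick
  have key1 : ∀ s' ∈ Set.Icc b c, 0 < ((-(starRingEnd ℂ E) * Complex.exp (-((4 * η : ℝ) * I)))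
      * (I * Complex.exp (s' * I))).im := by
    intro s' hs'
    have h3 : 0 < ((-I * Complex.exp (((4 * η - s' : ℝ) : ℂ) * I)) * E).im := by
      refine cur_im_pos h hp hab ?_
      intro s hs
      have h4 : (-I * Complex.exp (((4 * η - s' : ℝ) : ℂ) * I)) * (I * Complex.exp (s * I))
          = Complex.exp (((4 * η - s' + s : ℝ) : ℂ) * I) := by
        have : (((4 * η - s' + s : ℝ) : ℂ) * I) = (((4 * η - s' : ℝ) : ℂ) * I) + s * I := by
          push_cast; ring
        rw [this, Complex.exp_add]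
        linear_combination (-Complex.exp (((4 * η - s' : ℝ) : ℂ) * I) * Complex.exp (s * I)) * I_sq
      rw [h4, Complex.exp_ofReal_mul_I_im]
      apply Real.sin_pos_of_pos_of_lt_pi
      · linarith [hs.1, hs'.2]
      · linarith [hs.2, hs'.1]
    have h5 : (-(starRingEnd ℂ E) * Complex.exp (-((4 * η : ℝ) * I))) * (I * Complex.exp (s' * I))
        = -(starRingEnd ℂ ((-I * Complex.exp (((4 * η - s' : ℝ) : ℂ) * I)) * E)) := by
      rw [map_mul, map_mul, map_neg, Complex.conj_I, ← Complex.exp_conj, map_mul, Complex.conj_I,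
        Complex.conj_ofReal]
      have : (((4 * η - s' : ℝ) : ℂ) * -I) = -((4 * η : ℝ) * I) + s' * I := by push_cast; ring
      rw [this, Complex.exp_add]
      ring
    rw [h5, Complex.neg_im, Complex.conj_im, neg_neg]
    exact h3
  have him : 0 < ((-(starRingEnd ℂ E) * Complex.exp (-((4 * η : ℝ) * I))) * E').im :=
    cur_im_pos h hp hbc key1
  have key2 : ∀ s' ∈ Set.Icc b c, 0 < ((I * starRingEnd ℂ E) * (I * Complex.exp (s' * I))).im := by
    intro s' hs'
    have h3 : 0 < (Complex.exp (((-s' : ℝ) : ℂ) * I) * E).im := by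
      refine cur_im_pos h hp hab ?_
      intro s hs
      have h4 : Complex.exp (((-s' : ℝ) : ℂ) * I) * (I * Complex.exp (s * I))
          = I * Complex.exp (((s - s' : ℝ) : ℂ) * I) := by
        have : (((s - s' : ℝ) : ℂ) * I) = (((-s' : ℝ) : ℂ) * I) + s * I := by
          push_cast; ring
        rw [this, Complex.exp_add]
        ring
      rw [h4, Complex.I_mul_im, Complex.exp_ofReal_mul_I_re]
      apply Real.cos_pos_of_mem_Ioo
      constructor
      · linarith [hs.1, hs'.2]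
      · linarith [hs.2, hs'.1]
    have h5 : (I * starRingEnd ℂ E) * (I * Complex.exp (s' * I))
        = -(starRingEnd ℂ (Complex.exp (((-s' : ℝ) : ℂ) * I) * E)) := by
      rw [map_mul, ← Complex.exp_conj, map_mul, Complex.conj_I, Complex.conj_ofReal]
      have : (((-s' : ℝ) : ℂ) * -I) = s' * I := by push_cast; ring
      rw [this]
      linear_combination (starRingEnd ℂ E * Complex.exp (s' * I)) * I_sq
    rw [h5, Complex.neg_im, Complex.conj_im, neg_neg]
    exact h3
  have hre : 0 < ((I * starRingEnd ℂ E) * E').im := cur_im_pos h hp hbc key2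
  have hre' : 0 < (E' * starRingEnd ℂ E).re := by
    have : (I * starRingEnd ℂ E) * E' = I * (E' * starRingEnd ℂ E) := by ring
    rw [this, Complex.I_mul_im] at hre
    exact hre
  have hE0 : E ≠ 0 := by
    intro h0
    rw [h0] at hre'
    simp at hre'
  have hdiv : E' / E = (((Complex.normSq E)⁻¹ : ℝ) : ℂ) * (E' * starRingEnd ℂ E) := by
    rw [div_eq_mul_inv, Complex.inv_def]
    push_cast
    ring
  rw [hdiv, Complex.arg_real_mul _ (inv_pos.2 (Complex.normSq_pos.2 hE0))]
  refine arg_lt_of (by linarith) hre' ?_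
  have : (-(starRingEnd ℂ E) * Complex.exp (-((4 * η : ℝ) * I))) * E'
      = -((E' * starRingEnd ℂ E) * Complex.exp (-(((4 * η : ℝ) : ℂ) * I))) := by ring
  rw [this, Complex.neg_im] at him
  linarith

end Pool.Agent.H16F.H77
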